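import Pool.Agent.Run7.h684.LD.Def

/-!
# The polar part of `ζ(s)^k / s` at `s = 1`
-/

set_option autoImplicit false

open MeasureTheory Filter Topology Set Polynomial
open Pool.Agent.H295R2 (Nice Lap)

namespace Run7.h842.LD

open Run7.h684.LD

lemma RP_add (P Q : ℂ[X]) (s : ℂ) : RP (P + Q) s = RP P s + RP Q s := by
  unfold RP
  refine Polynomial.sum_add_index P Q _ ?_ ?_
  · intro i; simp
  · intro a b c; ring

lemma RP_monomial (k : ℕ) (a s : ℂ) :
    RP (monomial k a) s = a * (k.factorial : ℂ) / (s - 1) ^ (k + 1) := by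
  unfold RP
  rw [Polynomial.sum_monomial_index]
  simp

lemma RP_zero (s : ℂ) : RP 0 s = 0 := by
  unfold RP
  simp

lemma polar_aux (k : ℕ) : ∀ G : ℂ → ℂ, DifferentiableOn ℂ G {s : ℂ | 0 < s.re} →
    ∃ (P : ℂ[X]) (H : ℂ → ℂ), DifferentiableOn ℂ H {s : ℂ | 0 < s.re} ∧
      ∀ s : ℂ, s ≠ 1 → H s = G s / (s - 1) ^ k - RP P s := by
  induction k with
  | zero =>
    intro G hG
    refine ⟨0, G, hG, ?_⟩
    intro s _
    rw [RP_zero, pow_zero, div_one, sub_zero]
  | succ k ih =>
    intro G hG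
    have hopen : IsOpen {s : ℂ | 0 < s.re} := isOpen_lt continuous_const Complex.continuous_re
    have h1 : {s : ℂ | 0 < s.re} ∈ 𝓝 (1 : ℂ) := hopen.mem_nhds (by simp)
    have hG' : DifferentiableOn ℂ (dslope G 1) {s : ℂ | 0 < s.re} :=
      (Complex.differentiableOn_dslope h1).2 hG
    obtain ⟨P, H, hH, hP⟩ := ih _ hG'
    refine ⟨P + monomial k (G 1 / (k.factorial : ℂ)), H, hH, ?_⟩
    intro s hs
    have hs1 : s - 1 ≠ 0 := sub_ne_zero.2 hs
    have hk : (k.factorial : ℂ) ≠ 0 := by exact_mod_cast k.factorial_ne_zero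
    rw [hP s hs, RP_add, RP_monomial, dslope_of_ne _ hs, slope_def_field]
    field_simp
    ring

theorem t_polar : S_polar := by
  intro k
  have hG : DifferentiableOn ℂ (fun s : ℂ => Pool.Agent.H295R2.Zs s ^ k / s)
      {s : ℂ | 0 < s.re} := by
    intro s hs
    have hs0 : s ≠ 0 := by
      intro h
      rw [h] at hs
      simp at hs
    exact (((Pool.Agent.H295R2.Zs_differentiable s).pow k).div differentiableAt_id
      hs0).differentiableWithinAt
  obtain ⟨P, H, hH, hP⟩ := polar_aux k _ hG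
  refine ⟨P, H, ?_, ?_⟩
  · intro s hs
    have hopen : IsOpen {s : ℂ | 0 < s.re} := isOpen_lt continuous_const Complex.continuous_re
    exact (hH s hs).differentiableAt (hopen.mem_nhds hs)
  · intro s hs hs1
    rw [hP s hs1]
    have h1 : s - 1 ≠ 0 := sub_ne_zero.2 hs1
    have h0 : s ≠ 0 := by
      intro h
      rw [h] at hs
      simp at hs
    have h2 : Pool.Agent.H295R2.Zs s = (s - 1) * riemannZeta s :=
      (Pool.Agent.H295R2.Zs_eq hs1).symm
    show Pool.Agent.H295R2.Zs s ^ k / s / (s - 1) ^ k - RP P s = _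
    rw [h2, mul_pow]
    congr 1
    field_simp

end Run7.h842.LD
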