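import Pool.Agent.Run7.h684.LD.Def2
import Pool.Agent.Run7.h842.LD.Polar

/-!
# The main term in the divisor problem is determined (piece S_uniq)
-/

set_option autoImplicit false

open MeasureTheory Filter Topology Set Polynomial
open Pool.Agent.H295R2 (Nice Lap norm_exp_neg_mul integrable_ind_exp integral_ind_exp)

namespace Run7.h842.LD

open Run7.h684.LD

lemma D_nonneg (k : ℕ) (x : ℝ) : 0 ≤ D k x := Finset.sum_nonneg fun _ _ => Nat.cast_nonneg _

lemma D_meas (k : ℕ) : Measurable (fun u : ℝ => D k (Real.exp u)) := by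
  have h1 : Measurable (fun n : ℕ => ∑ m ∈ Finset.Icc 1 n, (dv k m : ℝ)) := measurable_from_nat
  exact h1.comp (Nat.measurable_floor.comp Real.measurable_exp)

lemma eval_real (Q : ℝ[X]) (u : ℝ) :
    (Q.map Complex.ofRealHom).eval (u : ℂ) = ((Q.eval u : ℝ) : ℂ) := by
  rw [Polynomial.eval_map]
  exact Polynomial.eval₂_at_apply Complex.ofRealHom u

lemma EP_norm (k : ℕ) (Q : ℝ[X]) {u : ℝ} (hu : 0 ≤ u) :
    ‖EP k (Q.map Complex.ofRealHom) u‖ = |D k (Real.exp u) - Real.exp u * Q.eval u| := by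
  unfold EP
  rw [if_neg (not_lt.2 hu), eval_real, ← Complex.ofReal_mul, ← Complex.ofReal_sub,
    Complex.norm_real, Real.norm_eq_abs]

lemma lap_small (k : ℕ) (hD : ∃ C : ℝ, 0 ≤ C ∧ ∀ x : ℝ, 1 ≤ x → D k x ≤ C * x ^ (2 : ℝ))
    (Q : ℝ[X])
    (hQ : ∀ ε : ℝ, 0 < ε → ∀ᶠ x : ℝ in atTop, |D k x - x * Q.eval (Real.log x)| ≤ ε * x)
    (ε : ℝ) (hε : 0 < ε) :
    ∃ K : ℝ, 0 ≤ K ∧ ∀ w : ℝ, 1 < w →
      ‖Lap (EP k (Q.map Complex.ofRealHom)) (w : ℂ)‖ ≤ K + ε / (w - 1) := by
  obtain ⟨C, hC, hD⟩ := hD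
  obtain ⟨X₀, hX₀⟩ := eventually_atTop.1 (hQ ε hε)
  set U : ℝ := |X₀| with hU
  have hU0 : 0 ≤ U := abs_nonneg _
  obtain ⟨M₁, hM₁⟩ := (isCompact_Icc (a := (0 : ℝ)) (b := U)).exists_bound_of_continuousOn
    (f := fun u => Real.exp u * Q.eval u)
    (by exact (Real.continuous_exp.mul Q.continuous).continuousOn)
  set M : ℝ := C * Real.exp U ^ (2 : ℝ) + |M₁| with hM
  have hM0 : 0 ≤ M := by positivity
  have hlarge : ∀ u, U < u → ‖EP k (Q.map Complex.ofRealHom) u‖ ≤ ε * Real.exp u := by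
    intro u hu
    rw [EP_norm k Q (hU0.trans hu.le)]
    have h1 : X₀ ≤ Real.exp u := by
      have h2 := Real.add_one_le_exp u
      have h3 := le_abs_self X₀
      linarith
    have h4 := hX₀ _ h1
    rwa [Real.log_exp] at h4
  have hsmall : ∀ u, 0 ≤ u → u ≤ U → ‖EP k (Q.map Complex.ofRealHom) u‖ ≤ M := by
    intro u hu hu'
    rw [EP_norm k Q hu]
    have h1 : D k (Real.exp u) ≤ C * Real.exp U ^ (2 : ℝ) := by
      refine (hD _ (Real.one_le_exp hu)).trans ?_
      refine mul_le_mul_of_nonneg_left ?_ hC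
      exact Real.rpow_le_rpow (Real.exp_pos u).le (Real.exp_le_exp.2 hu') (by norm_num)
    have h2 := hM₁ u ⟨hu, hu'⟩
    rw [Real.norm_eq_abs] at h2
    have h3 := le_abs_self M₁
    have h4 := D_nonneg k (Real.exp u)
    have h5 := abs_le.1 h2
    rw [abs_le]
    constructor <;> [linarith [h5.2, mul_nonneg hC (Real.rpow_nonneg (Real.exp_pos U).le 2)]; linarith [h5.1]]
  refine ⟨M * U, mul_nonneg hM0 hU0, fun w hw => ?_⟩
  have hb : 1 - w < 0 := by linarith
  have i1 := integrable_ind_exp hb ε 0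
  have i2 : Integrable ((Icc 0 U).indicator (fun _ : ℝ => M)) := by
    rw [integrable_indicator_iff measurableSet_Icc]
    exact integrableOn_const (by rw [Real.volume_Icc]; exact ENNReal.ofReal_ne_top)
  have hdom : ∀ u : ℝ, ‖EP k (Q.map Complex.ofRealHom) u * Complex.exp (-((w : ℂ) * u))‖ ≤
      (Ici (0 : ℝ)).indicator (fun u => ε * Real.exp ((1 - w) * u)) u +
        (Icc 0 U).indicator (fun _ => M) u := by
    intro u
    rw [norm_mul, norm_exp_neg_mul, Complex.ofReal_re]
    have p1 : 0 ≤ (Ici (0 : ℝ)).indicator (fun u => ε * Real.exp ((1 - w) * u)) u :=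
      indicator_nonneg (fun u _ => by positivity) u
    have p2 : 0 ≤ (Icc 0 U).indicator (fun _ => M) u := indicator_nonneg (fun _ _ => hM0) u
    rcases lt_or_ge u 0 with hu | hu
    · have : EP k (Q.map Complex.ofRealHom) u = 0 := by
        unfold EP
        rw [if_pos hu]
      rw [this, norm_zero, zero_mul]
      linarith
    · rcases le_or_gt u U with hu' | hu'
      · rw [indicator_of_mem (show u ∈ Icc 0 U from ⟨hu, hu'⟩)]
        have h1 := hsmall u hu hu'
        have h2 : Real.exp (-(w * u)) ≤ 1 := by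
          rw [Real.exp_le_one_iff]
          have : 0 ≤ w * u := mul_nonneg (by linarith) hu
          linarith
        have h3 : ‖EP k (Q.map Complex.ofRealHom) u‖ * Real.exp (-(w * u)) ≤ M * 1 :=
          mul_le_mul h1 h2 (Real.exp_pos _).le hM0
        linarith
      · rw [indicator_of_mem (show u ∈ Ici (0 : ℝ) from hu)]
        have h1 := hlarge u hu'
        have h3 : ‖EP k (Q.map Complex.ofRealHom) u‖ * Real.exp (-(w * u)) ≤
            ε * Real.exp u * Real.exp (-(w * u)) :=
          mul_le_mul_of_nonneg_right h1 (Real.exp_pos _).le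
        have h4 : ε * Real.exp u * Real.exp (-(w * u)) = ε * Real.exp ((1 - w) * u) := by
          rw [mul_assoc, ← Real.exp_add]
          congr 2
          ring
        linarith
  have hmain := norm_integral_le_of_norm_le (i1.add i2) (Eventually.of_forall hdom)
  unfold Lap
  refine hmain.trans ?_
  have e0 : (fun u => (Ici (0 : ℝ)).indicator (fun u => ε * Real.exp ((1 - w) * u)) u +
        (Icc 0 U).indicator (fun _ => M) u) = (Ici (0 : ℝ)).indicator
        (fun u => ε * Real.exp ((1 - w) * u)) + (Icc 0 U).indicator (fun _ => M) := rfl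
  have e1 : ∫ u, ((Ici (0 : ℝ)).indicator (fun u => ε * Real.exp ((1 - w) * u)) +
        (Icc 0 U).indicator (fun _ => M)) u = ε * (-Real.exp ((1 - w) * 0) / (1 - w)) + M * U := by
    rw [integral_add' i1 i2, integral_ind_exp hb, integral_indicator measurableSet_Icc,
      setIntegral_const, smul_eq_mul, measureReal_def, Real.volume_Icc, sub_zero,
      ENNReal.toReal_ofReal hU0, mul_comm U M]
  rw [e1, mul_zero, Real.exp_zero]
  have h5 : ε * (-1 / (1 - w)) = ε / (w - 1) := by
    have h6 : w - 1 ≠ 0 := by linarith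
    have h7 : 1 - w ≠ 0 := by linarith
    field_simp
    ring
  rw [h5]
  linarith

lemma poly_zero (R : ℂ[X]) (h : Tendsto (fun t : ℝ => R.eval (t : ℂ)) atTop (𝓝 0)) : R = 0 := by
  by_cases hd : 0 < R.degree
  · exfalso
    have hz : Tendsto (fun t : ℝ => ‖(t : ℂ)‖) atTop atTop := by
      simp only [Complex.norm_real]
      exact tendsto_norm_atTop_atTop
    have h1 := R.tendsto_norm_atTop hd hz
    have h2 := h.norm
    rw [norm_zero] at h2
    exact not_tendsto_atTop_of_tendsto_nhds h2 h1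
  · have h1 := eq_C_of_degree_le_zero (not_lt.1 hd)
    rw [h1] at h
    simp only [eval_C] at h
    have h2 := tendsto_nhds_unique h tendsto_const_nhds
    rw [h1, ← h2]
    simp

/-- the polynomial with `j!` -/
noncomputable def hat (R : ℂ[X]) : ℂ[X] := R.sum fun j a => monomial j (a * (j.factorial : ℂ))

lemma hat_coeff (R : ℂ[X]) (n : ℕ) : (hat R).coeff n = R.coeff n * (n.factorial : ℂ) := by
  unfold hat
  rw [Polynomial.sum_def, Polynomial.finsetSum_coeff]
  simp only [coeff_monomial]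
  rw [Finset.sum_ite_eq']
  split_ifs with h
  · rfl
  · rw [notMem_support_iff.1 h, zero_mul]

lemma hat_eval (R : ℂ[X]) {w : ℂ} (hw : w - 1 ≠ 0) :
    (hat R).eval (1 / (w - 1)) = (w - 1) * RP R w := by
  unfold hat RP
  rw [Polynomial.sum_def, Polynomial.sum_def, Polynomial.eval_finsetSum, Finset.mul_sum]
  refine Finset.sum_congr rfl fun j _ => ?_
  rw [eval_monomial, one_div, inv_pow]
  field_simp
  ring

theorem t_uniq (hdv : S_dv) (hlapD : S_lapD) (hlapP : S_lapP) : S_uniq := by
  intro k P H hPH Q hQ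
  set QC : ℂ[X] := Q.map Complex.ofRealHom with hQC
  obtain ⟨hDb, hDl⟩ := hlapD hdv k
  -- the transform of the error term
  have hid : ∀ w : ℝ, 1 < w → Lap (EP k QC) (w : ℂ) = H w + RP (P - QC) w := by
    intro w hw
    have hwre : 1 < ((w : ℂ)).re := by simpa using hw
    have hw0 : (w : ℂ) ≠ 0 := by
      intro h
      have := congrArg Complex.re h
      simp at this
      linarith
    have hw1 : (w : ℂ) ≠ 1 := by
      intro h
      have := congrArg Complex.re h
      simp at this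
      linarith
    have h1 := hDl w hwre
    obtain ⟨i2, h2⟩ := hlapP QC w hwre
    have h3 := hPH.eq w (by linarith) hw1
    obtain ⟨C, hC, hCb⟩ := hDb ((1 + w) / 2) (by linarith)
    have hnice : Nice (fun u : ℝ => if u < 0 then 0 else ((D k (Real.exp u) : ℝ) : ℂ)) C
        ((1 + w) / 2) 0 := by
      refine ⟨?_, ?_, ?_⟩
      · exact Measurable.ite measurableSet_Iio measurable_const
          (Complex.measurable_ofReal.comp (D_meas k))
      · intro u
        split_ifs with hu
        · rw [norm_zero]; positivity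
        · rw [Complex.norm_real, Real.norm_of_nonneg (D_nonneg k _)]
          refine (hCb _ (Real.one_le_exp (not_lt.1 hu))).trans (le_of_eq ?_)
          rw [← Real.exp_mul, mul_comm u]
      · intro u hu
        rw [if_pos hu]
    have i1 := hnice.integrable (s := (w : ℂ)) (by
      rw [Complex.ofReal_re]; linarith)
    have e1 : Lap (EP k QC) (w : ℂ) =
        Lap (fun u : ℝ => if u < 0 then 0 else ((D k (Real.exp u) : ℝ) : ℂ)) w -
        Lap (fun u : ℝ => if u < 0 then 0 else (Real.exp u : ℂ) * QC.eval (u : ℂ)) w := by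
      unfold Lap
      rw [← integral_sub i1 i2]
      refine integral_congr_ae (Eventually.of_forall fun u => ?_)
      simp only [EP]
      split_ifs <;> ring
    have e2 : RP P w = RP (P - QC) w + RP QC w := by
      rw [← RP_add, sub_add_cancel]
    have e3 : Lap (fun u : ℝ => if u < 0 then 0 else ((D k (Real.exp u) : ℝ) : ℂ)) w =
        riemannZeta w ^ k / w := by
      rw [eq_div_iff hw0, mul_comm]
      exact h1
    rw [e1, e3, h2, h3, e2]
    ring
  -- the limit
  have hlim : Tendsto (fun t : ℝ => (hat (P - QC)).eval (t : ℂ)) atTop (𝓝 0) := by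
    rw [tendsto_zero_iff_norm_tendsto_zero, Metric.tendsto_atTop]
    intro ε hε
    obtain ⟨K, hK0, hK⟩ := lap_small k (hDb 2 (by norm_num)) Q hQ (ε / 4) (by linarith)
    have hHc : ContinuousAt H 1 := (hPH.dif 1 (by simp)).continuousAt
    obtain ⟨δ, hδ, hHb⟩ := Metric.continuousAt_iff.1 hHc 1 one_pos
    refine ⟨2 / δ + 4 * (K + ‖H 1‖ + 1) / ε + 1, fun t ht => ?_⟩
    have hδ' : 0 < 2 / δ := by positivity
    have hB : 0 ≤ 4 * (K + ‖H 1‖ + 1) / ε := by positivity
    have ht0 : 0 < t := by linarith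
    have hw : (1 : ℝ) < 1 + 1 / t := by
      have : 0 < 1 / t := by positivity
      linarith
    have h1 := hid (1 + 1 / t) hw
    have h2 := hK (1 + 1 / t) hw
    have h3 : (1 + 1 / t : ℝ) - 1 = 1 / t := by ring
    have hc : ((1 + 1 / t : ℝ) : ℂ) - 1 = 1 / (t : ℂ) := by push_cast; ring
    have htc : (t : ℂ) ≠ 0 := by exact_mod_cast ht0.ne'
    have hne : ((1 + 1 / t : ℝ) : ℂ) - 1 ≠ 0 := by
      rw [hc]
      exact div_ne_zero one_ne_zero htc
    have h4 : (hat (P - QC)).eval (t : ℂ) = (1 / (t : ℂ)) *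
        (Lap (EP k QC) ((1 + 1 / t : ℝ) : ℂ) - H ((1 + 1 / t : ℝ) : ℂ)) := by
      have h5 := hat_eval (P - QC) hne
      rw [hc] at h5
      rw [one_div_one_div] at h5
      rw [h5, h1]
      ring
    have h6 : ‖H ((1 + 1 / t : ℝ) : ℂ)‖ ≤ ‖H 1‖ + 1 := by
      have h7 : dist ((1 + 1 / t : ℝ) : ℂ) 1 < δ := by
        rw [dist_eq_norm, hc, norm_div, norm_one, Complex.norm_real, Real.norm_of_nonneg ht0.le,
          div_lt_iff₀ ht0]
        have : 2 / δ < t := by linarith
        rw [div_lt_iff₀ hδ] at this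
        linarith
      have h8 := hHb h7
      rw [dist_eq_norm] at h8
      have h9 := norm_le_norm_add_norm_sub' (H ((1 + 1 / t : ℝ) : ℂ)) (H 1)
      linarith
    rw [h3] at h2
    rw [Real.dist_0_eq_abs, abs_of_nonneg (norm_nonneg _), h4, norm_mul, norm_div, norm_one,
      Complex.norm_real, Real.norm_of_nonneg ht0.le]
    have h10 : ‖Lap (EP k QC) ((1 + 1 / t : ℝ) : ℂ) - H ((1 + 1 / t : ℝ) : ℂ)‖ ≤
        (K + ε / 4 / (1 / t)) + (‖H 1‖ + 1) :=
      (norm_sub_le _ _).trans (add_le_add h2 h6)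
    have h11 : 1 / t * ‖Lap (EP k QC) ((1 + 1 / t : ℝ) : ℂ) - H ((1 + 1 / t : ℝ) : ℂ)‖ ≤
        1 / t * ((K + ε / 4 / (1 / t)) + (‖H 1‖ + 1)) :=
      mul_le_mul_of_nonneg_left h10 (by positivity)
    have h12 : 1 / t * ((K + ε / 4 / (1 / t)) + (‖H 1‖ + 1)) =
        (K + ‖H 1‖ + 1) / t + ε / 4 := by
      field_simp
      ring
    have h13 : (K + ‖H 1‖ + 1) / t ≤ ε / 4 := by
      rw [div_le_iff₀ ht0]
      have h14 : 4 * (K + ‖H 1‖ + 1) / ε ≤ t := by linarith
      rw [div_le_iff₀ hε] at h14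
      linarith
    linarith
  have hzero := poly_zero _ hlim
  have hPQ : P - QC = 0 := by
    ext n
    have h1 := congrArg (fun p => Polynomial.coeff p n) hzero
    simp only [hat_coeff, coeff_zero] at h1
    rcases mul_eq_zero.1 h1 with h | h
    · rw [h, coeff_zero]
    · exact absurd h (by exact_mod_cast n.factorial_ne_zero)
  exact (sub_eq_zero.1 hPQ).symm

end Run7.h842.LD
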